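import Mathlib
import Pool.Agent.Y421.El.D

/-!
Elastic Banach spaces of arbitrarily large density which are isometrically universal for separable
spaces and which, for every uncountable cardinal `lam`, are not universal for density `lam`.
-/

namespace Pool.Agent.Results.MP_9b3874_an.NotUniversalAtAnyUncountable

open Cardinal

/-- The density character of a topological space: the least cardinality of a dense subset. -/
noncomputable def dens (X : Type) [TopologicalSpace X] : Cardinal.{0} :=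
  sInf {c : Cardinal.{0} | ∃ s : Set X, Dense s ∧ Cardinal.mk s = c}

/-- `X` is `K`-elastic: for every norm `p` on `X` equivalent to the given one, `(X, p)` is
`K`-isomorphic to a subspace of `X`, i.e. there is a linear `L` with
`a * p x ≤ ‖L x‖ ≤ b * p x` for all `x`, where `0 < a` and `b / a ≤ K`. -/
def IsElastic (𝕜 X : Type) [RCLike 𝕜] [NormedAddCommGroup X] [NormedSpace 𝕜 X] (K : ℝ) : Prop :=
  ∀ p : Seminorm 𝕜 X, (∃ a : ℝ, 0 < a ∧ ∀ x, a * ‖x‖ ≤ p x) → (∃ b : ℝ, ∀ x, p x ≤ b * ‖x‖) →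
    ∃ (L : X →ₗ[𝕜] X) (a b : ℝ), 0 < a ∧ 0 < b ∧ b ≤ K * a ∧
      ∀ x, a * p x ≤ ‖L x‖ ∧ ‖L x‖ ≤ b * p x

/-- Every seminorm on `X` dominated by a multiple of the norm is `x ↦ ‖L x‖` for a bounded linear
`L : X → X`. (Hence every equivalent renorming of `X` embeds isometrically in `X`.) -/
def SeminormElastic (𝕜 X : Type) [RCLike 𝕜] [NormedAddCommGroup X] [NormedSpace 𝕜 X] : Prop :=
  ∀ p : Seminorm 𝕜 X, (∃ C : ℝ, ∀ x, p x ≤ C * ‖x‖) → ∃ L : X →L[𝕜] X, ∀ x, ‖L x‖ = p x

/-- `Y` embeds isomorphically into `X`. -/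
def EmbedsInto (𝕜 Y X : Type) [RCLike 𝕜] [NormedAddCommGroup Y] [NormedSpace 𝕜 Y]
    [NormedAddCommGroup X] [NormedSpace 𝕜 X] : Prop :=
  ∃ L : Y →L[𝕜] X, ∃ c : ℝ, 0 < c ∧ ∀ y, c * ‖y‖ ≤ ‖L y‖

/-- Iterated power sets of `G`. -/
def Lvl (G : Type) : ℕ → Type
  | 0 => G
  | n + 1 => Set (Lvl G n)

theorem lvl_lv {G : Type} (hG : 𝔠 ≤ #G) : Pool.Agent.Y421.El.Lv (Lvl G) where
  zero := hG
  succ := fun _ => Cardinal.mk_set

/-- Over `ℝ` and over `ℂ`, for every cardinal `κ` there is a nonseparable Banach space `X` of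
density larger than `κ` which is `1`-elastic (indeed every seminorm dominated by the norm is
`‖L x‖`), which contains every separable normed space isometrically, and which for every
uncountable cardinal `lam` fails to contain some Banach space of density `lam`, namely
`ℓ¹(Γ)`, `#Γ = lam`; in particular this holds for `lam = dens X` and for `lam = ℵ₁`. -/
theorem result (𝕜 : Type) [RCLike 𝕜] (κ : Cardinal.{0}) :
    ∃ (X : Type) (_ : NormedAddCommGroup X) (_ : NormedSpace 𝕜 X) (_ : CompleteSpace X),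
      κ < dens X ∧ ℵ₀ < dens X ∧ IsElastic 𝕜 X 1 ∧ SeminormElastic 𝕜 X ∧
      (∀ (Z : Type) [NormedAddCommGroup Z] [NormedSpace 𝕜 Z] [TopologicalSpace.SeparableSpace Z],
        Nonempty (Z →ₗᵢ[𝕜] X)) ∧
      (∀ Γ : Type, Uncountable Γ → ¬ EmbedsInto 𝕜 (lp (fun _ : Γ => 𝕜) 1) X) ∧
      (∀ lam : Cardinal.{0}, ℵ₀ < lam →
        ∃ (Y : Type) (_ : NormedAddCommGroup Y) (_ : NormedSpace 𝕜 Y) (_ : CompleteSpace Y),
          dens Y = lam ∧ ¬ EmbedsInto 𝕜 Y X) := by
  have hG : 𝔠 ≤ #(Quotient.out (max κ 𝔠 : Cardinal.{0})) := by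
    rw [Cardinal.mk_out]
    exact le_max_right _ _
  obtain ⟨X, _, _, _, hd, hE, hS, hN⟩ := Pool.Agent.Y421.El.main' 𝕜 (lvl_lv hG)
  have hd1 : max κ 𝔠 < dens X := by
    refine lt_of_lt_of_le ?_ (hd 1)
    change max κ 𝔠 < #(Set (Quotient.out (max κ 𝔠 : Cardinal.{0})))
    rw [Cardinal.mk_set, Cardinal.mk_out]
    exact Cardinal.cantor _
  refine ⟨X, inferInstance, inferInstance, inferInstance, (le_max_left _ _).trans_lt hd1,
    (Cardinal.aleph0_lt_continuum.trans_le (le_max_right _ _)).trans hd1, ?_, hE, hS, ?_, ?_⟩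
  · rintro p - hp
    obtain ⟨L, hL⟩ := hE p hp
    exact ⟨L.toLinearMap, 1, 1, one_pos, one_pos, by norm_num, fun x =>
      ⟨by rw [one_mul]; exact (hL x).ge, by rw [one_mul]; exact (hL x).le⟩⟩
  · intro Γ hΓ
    exact hN Γ (Cardinal.aleph0_lt_mk_iff.2 hΓ)
  · intro lam hlam
    have hc : ℵ₀ < #(Quotient.out lam) := by
      rw [Cardinal.mk_out]
      exact hlam
    refine ⟨lp (fun _ : Quotient.out lam => 𝕜) 1, inferInstance, inferInstance, inferInstance,
      ?_, ?_⟩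
    · exact (Pool.Agent.Y421.El.dens_l1' hc.le).trans (Cardinal.mk_out _)
    · exact hN _ hc

end Pool.Agent.Results.MP_9b3874_an.NotUniversalAtAnyUncountable
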